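import Pool.Agent.Helper57.NX3.Defs
import Pool.Agent.Helper67.NX2.DefsB

/-!
Project NX2, part C, module C2: cell calculus.
-/

set_option autoImplicit false

open Finset
open scoped BigOperators

namespace Pool.Agent.Helper57.NX3

noncomputable section

theorem FA_nonneg (z : ℕ) (A : Finset ℕ) (x : ℕ) : 0 ≤ FA z A x := by
  unfold FA
  split_ifs
  · exact Real.log_nonneg (one_le_pow₀ (by norm_num))
  · exact le_refl _

theorem FA_le (z : ℕ) (A : Finset ℕ) (x : ℕ) : FA z A x ≤ Real.log ((2 : ℝ) ^ z) := by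
  unfold FA
  split_ifs
  · exact le_refl _
  · exact Real.log_nonneg (one_le_pow₀ (by norm_num))

theorem sum_FA {z : ℕ} {A : Finset ℕ} (hA : PS z A) :
    ∑ x ∈ range (2 ^ z), FA z A x = Real.log ((2 : ℝ) ^ z) * A.card := by
  unfold FA
  rw [← Finset.sum_filter]
  have h : (range (2 ^ z)).filter (fun x => x ∈ A) = A := by
    ext x
    rw [Finset.mem_filter, Finset.mem_range]
    exact ⟨fun h => h.2, fun h => ⟨(hA x h).2, h⟩⟩
  rw [h, Finset.sum_const, nsmul_eq_mul, mul_comm]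

theorem mem_blo {b x y : ℕ} : y ∈ blo b x ↔ y / 2 ^ b = x / 2 ^ b := by
  unfold blo
  have hp : 0 < 2 ^ b := by positivity
  rw [Finset.mem_Ico]
  constructor
  · rintro ⟨h1, h2⟩
    apply le_antisymm
    · apply Nat.lt_succ_iff.mp
      rw [Nat.div_lt_iff_lt_mul hp]
      rw [mul_comm]
      exact h2
    · rw [Nat.le_div_iff_mul_le hp, mul_comm]
      exact h1
  · intro h
    rw [← h]
    exact ⟨Nat.mul_div_le y _, by
      rw [mul_comm]
      exact (Nat.div_lt_iff_lt_mul hp).mp (Nat.lt_succ_self _)⟩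

/-- membership in a cell -/
theorem mem_cell {M b x y : ℕ} :
    y ∈ (blo b x).filter (fun y => y ≡ x [MOD M]) ↔ y / 2 ^ b = x / 2 ^ b ∧ y ≡ x [MOD M] := by
  rw [Finset.mem_filter, mem_blo]

theorem cd_nonneg {f : ℕ → ℝ} (hf : ∀ x, 0 ≤ f x) (M b x : ℕ) : 0 ≤ cd f M b x := by
  unfold cd
  exact mul_nonneg (by positivity) (Finset.sum_nonneg fun y _ => hf y)

theorem cell_card {M b : ℕ} (hM : 1 ≤ M) (x : ℕ) :
    |(((blo b x).filter (fun y => y ≡ x [MOD M])).card : ℝ) - 2 ^ b / M| ≤ 1 := by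
  have hM0 : (0 : ℝ) < M := by exact_mod_cast hM
  have hMq : (0 : ℚ) < M := by exact_mod_cast hM
  unfold blo
  have h := Nat.Ico_filter_modEq_card (2 ^ b * (x / 2 ^ b)) (2 ^ b * (x / 2 ^ b + 1)) hM x
  set n : ℕ := ((Ico (2 ^ b * (x / 2 ^ b)) (2 ^ b * (x / 2 ^ b + 1))).filter
    (fun y => y ≡ x [MOD M])).card with hn
  set p : ℚ := (((2 ^ b * (x / 2 ^ b + 1) : ℕ) : ℚ) - (x : ℚ)) / (M : ℚ) with hp
  set q : ℚ := (((2 ^ b * (x / 2 ^ b) : ℕ) : ℚ) - (x : ℚ)) / (M : ℚ) with hq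
  have hpq : p = q + 2 ^ b / M := by
    rw [hp, hq]
    push_cast
    field_simp
    ring
  have hpos : (0 : ℚ) ≤ 2 ^ b / M := by positivity
  have h1 : (⌈q⌉ : ℤ) ≤ ⌈p⌉ := Int.ceil_mono (by linarith)
  have h2 : ((n : ℕ) : ℤ) = ⌈p⌉ - ⌈q⌉ := by
    rw [h]
    exact max_eq_left (by linarith)
  have h3 : ((n : ℕ) : ℚ) = (⌈p⌉ : ℚ) - (⌈q⌉ : ℚ) := by exact_mod_cast h2
  have a1 := Int.le_ceil p
  have a2 := Int.ceil_lt_add_one p
  have a3 := Int.le_ceil q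
  have a4 := Int.ceil_lt_add_one q
  have h4 : |((n : ℕ) : ℚ) - 2 ^ b / M| ≤ 1 := by
    rw [abs_le]
    constructor <;> linarith
  have h5 : (((|((n : ℕ) : ℚ) - 2 ^ b / M| : ℚ)) : ℝ) ≤ ((1 : ℚ) : ℝ) := by exact_mod_cast h4
  push_cast at h5
  exact h5

theorem cell_card_le {M b : ℕ} (hM : 1 ≤ M) (x : ℕ) :
    (M : ℝ) / 2 ^ b * (((blo b x).filter (fun y => y ≡ x [MOD M])).card : ℝ) ≤ 1 + (M : ℝ) / 2 ^ b := by
  have hM0 : (0 : ℝ) < M := by exact_mod_cast hM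
  have h := (abs_le.mp (cell_card (b := b) hM x)).2
  have h2 : (((blo b x).filter (fun y => y ≡ x [MOD M])).card : ℝ) ≤ 2 ^ b / M + 1 := by linarith
  calc (M : ℝ) / 2 ^ b * (((blo b x).filter (fun y => y ≡ x [MOD M])).card : ℝ) ≤
      (M : ℝ) / 2 ^ b * (2 ^ b / M + 1) := mul_le_mul_of_nonneg_left h2 (by positivity)
    _ = 1 + (M : ℝ) / 2 ^ b := by field_simp

theorem cell_card_ge {M b : ℕ} (hM : 1 ≤ M) (x : ℕ) :
    1 - (M : ℝ) / 2 ^ b ≤ (M : ℝ) / 2 ^ b * (((blo b x).filter (fun y => y ≡ x [MOD M])).card : ℝ) := by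
  have hM0 : (0 : ℝ) < M := by exact_mod_cast hM
  have h := (abs_le.mp (cell_card (b := b) hM x)).1
  have h2 : 2 ^ b / M - 1 ≤ (((blo b x).filter (fun y => y ≡ x [MOD M])).card : ℝ) := by linarith
  calc 1 - (M : ℝ) / 2 ^ b = (M : ℝ) / 2 ^ b * (2 ^ b / M - 1) := by field_simp
    _ ≤ _ := mul_le_mul_of_nonneg_left h2 (by positivity)

theorem cd_le {f : ℕ → ℝ} {B : ℝ} (hf : ∀ x, 0 ≤ f x) (hB : ∀ x, f x ≤ B) {M b : ℕ} (hM : 1 ≤ M)
    (hMb : M ≤ 2 ^ b) (x : ℕ) : cd f M b x ≤ 2 * B := by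
  have hB0 : 0 ≤ B := (hf 0).trans (hB 0)
  have h1 : (M : ℝ) / 2 ^ b ≤ 1 := by
    rw [div_le_one (by positivity)]
    exact_mod_cast hMb
  unfold cd
  calc (M : ℝ) / 2 ^ b * ∑ y ∈ (blo b x).filter (fun y => y ≡ x [MOD M]), f y
      ≤ (M : ℝ) / 2 ^ b * ∑ _y ∈ (blo b x).filter (fun y => y ≡ x [MOD M]), B :=
        mul_le_mul_of_nonneg_left (Finset.sum_le_sum fun y _ => hB y) (by positivity)
    _ = ((M : ℝ) / 2 ^ b * (((blo b x).filter (fun y => y ≡ x [MOD M])).card : ℝ)) * B := by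
        rw [Finset.sum_const, nsmul_eq_mul]
        ring
    _ ≤ 2 * B := mul_le_mul_of_nonneg_right ((cell_card_le hM x).trans (by linarith)) hB0

theorem cd_congr (f : ℕ → ℝ) {M b x x' : ℕ} (h1 : x / 2 ^ b = x' / 2 ^ b)
    (h2 : x ≡ x' [MOD M]) : cd f M b x = cd f M b x' := by
  unfold cd
  have h : (blo b x).filter (fun y => y ≡ x [MOD M]) = (blo b x').filter (fun y => y ≡ x' [MOD M]) := by
    ext y
    rw [mem_cell, mem_cell, h1]
    exact ⟨fun h => ⟨h.1, h.2.trans h2⟩, fun h => ⟨h.1, h.2.trans h2.symm⟩⟩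
  rw [h]

theorem cd_one (f : ℕ → ℝ) (b x : ℕ) : cd f 1 b x = (∑ y ∈ blo b x, f y) / 2 ^ b := by
  unfold cd
  have h : (blo b x).filter (fun y => y ≡ x [MOD 1]) = blo b x := by
    apply Finset.filter_true_of_mem
    intro y _
    exact Nat.modEq_one
  rw [h]
  push_cast
  ring

/-- the same cell averages as in part B -/
theorem Fm_eq_cd (z : ℕ) (A : Finset ℕ) (M b x : ℕ) :
    Helper67.NX2.Fm (Helper67.NX2.FA z A) M b x = cd (FA z A) M b x := by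
  unfold Helper67.NX2.Fm Helper67.NX2.cell cd
  rw [Finset.sum_filter]
  congr 1
  have h0 : Helper67.NX2.bl b (x / 2 ^ b) = blo b x := rfl
  rw [h0]
  apply Finset.sum_congr rfl
  intro y _
  have h1 : ((y : ZMod M) = (x : ZMod M)) ↔ y ≡ x [MOD M] := ZMod.natCast_eq_natCast_iff y x M
  by_cases h2 : y ≡ x [MOD M]
  · rw [if_pos h2, if_pos (h1.mpr h2)]
    rfl
  · rw [if_neg h2, if_neg (fun h => h2 (h1.mp h))]

/-- exchange of the sums -/
theorem sum_cd_closed (f : ℕ → ℝ) (M b : ℕ) (C : Finset ℕ)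
    (hC : ∀ y ∈ C, ∀ u, u / 2 ^ b = y / 2 ^ b → u ≡ y [MOD M] → u ∈ C) :
    ∑ y ∈ C, cd f M b y = ∑ u ∈ C, f u *
      ((M : ℝ) / 2 ^ b * (((blo b u).filter (fun y => y ≡ u [MOD M])).card : ℝ)) := by
  have h1 : ∀ y ∈ C, cd f M b y = ∑ u ∈ C, if (u / 2 ^ b = y / 2 ^ b ∧ u ≡ y [MOD M]) then
      (M : ℝ) / 2 ^ b * f u else 0 := by
    intro y hy
    unfold cd
    rw [Finset.mul_sum, ← Finset.sum_filter]
    apply Finset.sum_congr _ (fun _ _ => rfl)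
    ext u
    rw [mem_cell, Finset.mem_filter]
    exact ⟨fun h => ⟨hC y hy u h.1 h.2, h⟩, fun h => h.2⟩
  rw [Finset.sum_congr rfl h1, Finset.sum_comm]
  apply Finset.sum_congr rfl
  intro u hu
  rw [← Finset.sum_filter, Finset.sum_const, nsmul_eq_mul]
  have h2 : C.filter (fun y => u / 2 ^ b = y / 2 ^ b ∧ u ≡ y [MOD M]) =
      (blo b u).filter (fun y => y ≡ u [MOD M]) := by
    ext y
    rw [mem_cell, Finset.mem_filter]
    exact ⟨fun h => ⟨h.2.1.symm, h.2.2.symm⟩, fun h => ⟨hC u hu y h.1 h.2, h.1.symm, h.2.symm⟩⟩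
  rw [h2]
  ring

/-- the sum of the fine cell averages over a coarse cell is almost the sum of the function -/
theorem sum_cd_cell {f : ℕ → ℝ} (hf : ∀ x, 0 ≤ f x) {M M' b b' : ℕ} (hM : 1 ≤ M) (hM' : 1 ≤ M')
    (hMM : M ∣ M') (hb : b' ≤ b) (x : ℕ) :
    |(∑ y ∈ (blo b x).filter (fun y => y ≡ x [MOD M]), cd f M' b' y) -
      ∑ y ∈ (blo b x).filter (fun y => y ≡ x [MOD M]), f y| ≤
      (M' : ℝ) / 2 ^ b' * ∑ y ∈ (blo b x).filter (fun y => y ≡ x [MOD M]), f y := by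
  have hdiv : ∀ u : ℕ, u / 2 ^ b = u / 2 ^ b' / 2 ^ (b - b') := by
    intro u
    rw [Nat.div_div_eq_div_mul, ← pow_add, Nat.add_sub_cancel' hb]
  rw [sum_cd_closed f M' b' _ (by
    intro y hy u hu1 hu2
    rw [mem_cell] at hy ⊢
    refine ⟨?_, (hu2.of_dvd hMM).trans hy.2⟩
    rw [← hy.1, hdiv u, hdiv y, hu1])]
  rw [← Finset.sum_sub_distrib, Finset.mul_sum]
  refine (Finset.abs_sum_le_sum_abs _ _).trans (Finset.sum_le_sum fun u _ => ?_)
  have h1 := cell_card_le (b := b') hM' u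
  have h2 := cell_card_ge (b := b') hM' u
  set t : ℝ := (M' : ℝ) / 2 ^ b' * (((blo b' u).filter (fun y => y ≡ u [MOD M'])).card : ℝ) with ht
  have h3 : f u * t - f u = f u * (t - 1) := by ring
  rw [h3, abs_mul, abs_of_nonneg (hf u), mul_comm]
  apply mul_le_mul_of_nonneg_right _ (hf u)
  rw [abs_le]
  constructor <;> linarith

/-- sums over a block, restricted to the classes prime to `M` -/
theorem sum_cd_block {f : ℕ → ℝ} (hf : ∀ x, 0 ≤ f x) {M b : ℕ} (hM : 1 ≤ M) (x : ℕ) :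
    ∑ y ∈ (blo b x).filter (fun y => y.Coprime M), cd f M b y ≤
      (1 + (M : ℝ) / 2 ^ b) * ∑ y ∈ blo b x, f y := by
  rw [sum_cd_closed f M b _ (by
    intro y hy u hu1 hu2
    rw [Finset.mem_filter, mem_blo] at hy ⊢
    refine ⟨hu1.trans hy.1, ?_⟩
    unfold Nat.Coprime
    rw [hu2.gcd_eq]
    exact hy.2)]
  calc ∑ u ∈ (blo b x).filter (fun y => y.Coprime M), f u *
        ((M : ℝ) / 2 ^ b * (((blo b u).filter (fun y => y ≡ u [MOD M])).card : ℝ))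
      ≤ ∑ u ∈ (blo b x).filter (fun y => y.Coprime M), f u * (1 + (M : ℝ) / 2 ^ b) :=
        Finset.sum_le_sum fun u _ => mul_le_mul_of_nonneg_left (cell_card_le hM u) (hf u)
    _ ≤ ∑ u ∈ blo b x, f u * (1 + (M : ℝ) / 2 ^ b) := by
        apply Finset.sum_le_sum_of_subset_of_nonneg (Finset.filter_subset _ _)
        intro u _ _
        exact mul_nonneg (hf u) (by positivity)
    _ = _ := by rw [← Finset.sum_mul, mul_comm]

theorem sum_cd_coprime {f : ℕ → ℝ} (hf : ∀ x, 0 ≤ f x) {M b z : ℕ} (hM : 1 ≤ M) (hb : b ≤ z) :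
    (1 - (M : ℝ) / 2 ^ b) * ∑ y ∈ (range (2 ^ z)).filter (fun y => y.Coprime M), f y ≤
      ∑ y ∈ (range (2 ^ z)).filter (fun y => y.Coprime M), cd f M b y := by
  have hp : 0 < 2 ^ b := by positivity
  have hz : ∀ u : ℕ, u < 2 ^ z ↔ u / 2 ^ b < 2 ^ (z - b) := by
    intro u
    rw [Nat.div_lt_iff_lt_mul hp, ← pow_add, Nat.sub_add_cancel hb]
  rw [sum_cd_closed f M b _ (by
    intro y hy u hu1 hu2
    rw [Finset.mem_filter, Finset.mem_range] at hy ⊢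
    refine ⟨?_, ?_⟩
    · rw [hz, hu1, ← hz]
      exact hy.1
    · unfold Nat.Coprime
      rw [hu2.gcd_eq]
      exact hy.2)]
  rw [Finset.mul_sum]
  refine Finset.sum_le_sum fun u _ => ?_
  rw [mul_comm]
  exact mul_le_mul_of_nonneg_left (cell_card_ge hM u) (hf u)

end

end Pool.Agent.Helper57.NX3
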